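import Pool.Agent.ASE.Stmts5
import Pool.Agent.Helper17_ASD.LAD
import Pool.Agent.Helper62_ASO.LBS

open scoped BigOperators

noncomputable section

namespace Pool.Agent.PP.SE.H63

open Pool.Agent.Helper51_AWC Pool.Agent.Helper79_WRA Pool.Agent.PP Pool.Agent.PP.KF
open Pool.Agent.PP.K9 Pool.Agent.PP.K9.H97 Pool.Agent.PP.H75 Pool.Agent.PP.T3 Pool.Agent.PP.SO
open Pool.Agent.PP.SD
open Pool.Agent.PP.SO.H10L (mem_C c_mem)

attribute [local instance] Ideal.Quotient.field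

section aux

variable {V₀ G : Type} [CommGroup V₀] [Finite V₀] [Group G] [Finite G]
  {M : Ideal (integralClosure ℤ ℂ)} [M.IsMaximal]

/-! The next two lemmas are copied from `Helper72_ASD/LBX.lean` (helper72). -/

theorem sup_top {ℓ : ℕ} (hℓ : ℓ.Prime) {E₀ : Subgroup (MulAut V₀)} (hFr : Fq ℓ V₀ E₀) {c : V₀}
    (hc : c ≠ 1) {P : Subgroup V₀} (hP : ¬ P ≤ Subgroup.zpowers c) :
    P ⊔ Subgroup.zpowers c = ⊤ := by
  have : Fact ℓ.Prime := ⟨hℓ⟩
  have ho : orderOf c = ℓ := orderOf_eq_prime (hFr.ex c) hc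
  have h1 : Nat.card (Subgroup.zpowers c) = ℓ := by rw [Nat.card_zpowers, ho]
  have h2 : Subgroup.zpowers c < P ⊔ Subgroup.zpowers c := by
    refine lt_of_le_of_ne le_sup_right fun h => hP ?_
    rw [h]
    exact le_sup_left
  have h3 : Nat.card (Subgroup.zpowers c) ∣ Nat.card (P ⊔ Subgroup.zpowers c : Subgroup V₀) :=
    Subgroup.card_dvd_of_le h2.le
  have h4 : Nat.card (P ⊔ Subgroup.zpowers c : Subgroup V₀) ∣ ℓ ^ 2 := by
    rw [← hFr.cd]
    exact Subgroup.card_subgroup_dvd_card _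
  obtain ⟨k, hk, hk2⟩ := (Nat.dvd_prime_pow hℓ).1 h4
  apply Subgroup.eq_top_of_card_eq
  rw [hFr.cd]
  have h5 : k = 2 := by
    have h6 : Nat.card (P ⊔ Subgroup.zpowers c : Subgroup V₀) ≠ ℓ := by
      intro h7
      have h8 := Subgroup.eq_of_le_of_card_ge h2.le (by rw [h7, h1])
      exact h2.ne h8
    interval_cases k
    · exfalso
      rw [hk2, pow_zero, h1] at h3
      exact hℓ.one_lt.ne' (Nat.dvd_one.1 h3)
    · exfalso
      rw [hk2, pow_one] at h6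
      exact h6 rfl
    · rfl
  rw [hk2, h5]

open Classical in
/-- the key lemma for one variable -/
theorem one_var {ℓ : ℕ} (hℓ : ℓ.Prime) {E₀ : Subgroup (MulAut V₀)} (hFr : Fq ℓ V₀ E₀)
    (B : Bk (FF M) V₀ G) [Fintype G] {c : V₀} (hc : c ≠ 1) (P : Subgroup V₀) (Y : G → ℂ)
    (hY : P ≤ Subgroup.zpowers c → ∀ z ∈ B.C (Subgroup.zpowers c), ∀ s, Y (z * s * z⁻¹) = Y s) :
    ∑ f : Bool, (if P ≤ frm c f then ∑ s, wtD E₀ B c f s * Y s else 0) =
      ((kf E₀ P c : ℚ) : ℂ) * ((Nat.card (B.C (P ⊔ Subgroup.zpowers c)) : ℂ)⁻¹ *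
        ∑ s, bh B (P ⊔ Subgroup.zpowers c) s * Y s) := by
  rw [Fintype.sum_bool]
  have ht : P ≤ frm c true := by
    show P ≤ (⊤ : Subgroup V₀)
    exact le_top
  rw [if_pos ht]
  have hwt : ∀ s, wtD E₀ B c true s = ((kE E₀ c : ℂ) * Nat.card (B.C ⊤))⁻¹ * bh B ⊤ s :=
    fun s => rfl
  by_cases hP : P ≤ Subgroup.zpowers c
  · have hf : P ≤ frm c false := hP
    have hk : kf E₀ P c = 1 := by
      unfold kf
      rw [if_pos hP]
    rw [if_pos hf, sup_eq_right.2 hP, hk, Rat.cast_one, one_mul]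
    have := Fintype.ofFinite (B.C (Subgroup.zpowers c))
    have hwf : ∀ s, wtD E₀ B c false s = (Nat.card (B.C (Subgroup.zpowers c)) : ℂ)⁻¹ *
        (bh B (Subgroup.zpowers c) s - ((kE E₀ c : ℂ) * Nat.card (B.C ⊤))⁻¹ *
          ∑ z : B.C (Subgroup.zpowers c), bh B ⊤ ((z : G)⁻¹ * s * z)) := by
      intro s
      rw [← finsum_eq_sum_of_fintype]
      rfl
    have h1 : ∑ s, (∑ z : B.C (Subgroup.zpowers c), bh B ⊤ ((z : G)⁻¹ * s * z)) * Y s =
        Nat.card (B.C (Subgroup.zpowers c)) * ∑ s, bh B ⊤ s * Y s := by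
      simp only [Finset.sum_mul]
      rw [Finset.sum_comm]
      have h2 : ∀ z : B.C (Subgroup.zpowers c), ∑ s, bh B ⊤ ((z : G)⁻¹ * s * z) * Y s =
          ∑ s, bh B ⊤ s * Y s := by
        intro z
        rw [← Equiv.sum_comp (MulAut.conj (z : G)).toEquiv]
        refine Finset.sum_congr rfl fun s _ => ?_
        have e1 : (MulAut.conj (z : G)).toEquiv s = z * s * (z : G)⁻¹ := rfl
        rw [e1, hY hP z z.2]
        have e2 : (z : G)⁻¹ * (z * s * (z : G)⁻¹) * z = s := by group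
        rw [e2]
      rw [Finset.sum_congr rfl fun z _ => h2 z, Finset.sum_const, nsmul_eq_mul, Finset.card_univ,
        Nat.card_eq_fintype_card]
    have h3 : (Nat.card (B.C (Subgroup.zpowers c)) : ℂ) ≠ 0 := by
      exact_mod_cast Nat.card_pos.ne'
    obtain ⟨K, hK⟩ : ∃ K : ℂ, K = ((kE E₀ c : ℂ) * Nat.card (B.C ⊤))⁻¹ := ⟨_, rfl⟩
    rw [← hK] at hwf hwt
    have h4 : ∑ s, wtD E₀ B c false s * Y s = (Nat.card (B.C (Subgroup.zpowers c)) : ℂ)⁻¹ *
        (∑ s, bh B (Subgroup.zpowers c) s * Y s) - K *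
          ∑ s, bh B ⊤ s * Y s := by
      have h5 : ∀ s, wtD E₀ B c false s * Y s = (Nat.card (B.C (Subgroup.zpowers c)) : ℂ)⁻¹ *
          (bh B (Subgroup.zpowers c) s * Y s) - (Nat.card (B.C (Subgroup.zpowers c)) : ℂ)⁻¹ *
          K *
          ((∑ z : B.C (Subgroup.zpowers c), bh B ⊤ ((z : G)⁻¹ * s * z)) * Y s) := by
        intro s
        rw [hwf]
        ring
      rw [Finset.sum_congr rfl fun s _ => h5 s, Finset.sum_sub_distrib, ← Finset.mul_sum,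
        ← Finset.mul_sum, h1]
      field_simp
    have h6 : ∑ s, wtD E₀ B c true s * Y s = K * ∑ s, bh B ⊤ s * Y s := by
      rw [Finset.mul_sum]
      refine Finset.sum_congr rfl fun s _ => ?_
      rw [hwt]
      ring
    rw [h4, h6]
    ring
  · have hf : ¬ P ≤ frm c false := hP
    have hk : ((kf E₀ P c : ℚ) : ℂ) = (kE E₀ c : ℂ)⁻¹ := by
      unfold kf
      rw [if_neg hP]
      push_cast
      rfl
    rw [if_neg hf, add_zero, sup_top hℓ hFr hc hP, hk, Finset.mul_sum, Finset.mul_sum]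
    refine Finset.sum_congr rfl fun s _ => ?_
    rw [hwt, mul_inv]
    ring

/-- the frames of `mnl` -/
theorem frm_lmn (cnd : SD.CndStmt) (ℓ : ℕ) [Fact ℓ.Prime] (hM : (ℓ : integralClosure ℤ ℂ) ∈ M)
    (hℓ : ℓ ≠ 2) (E₀ : Subgroup (MulAut V₀)) (hF : Fq ℓ V₀ E₀) (B : Bk (FF M) V₀ G)
    (hB : Sd ℓ M E₀ B) (c : V₀) (hc : c ≠ 1) (f : Bool) :
    Frm ℓ B (frm c f) c (fun s => (kE E₀ c : ℂ) * wtD E₀ B c f s) where
  mem := c_mem c f
  sup s hs := by
    show (kE E₀ c : ℂ) * wtD E₀ B c f s = 0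
    rw [SD.H17.wt_supp E₀ B c f s hs, mul_zero]
  reg s hs := by
    show (kE E₀ c : ℂ) * wtD E₀ B c f s = 0
    rw [SD.H17.wt_sing ℓ hM hB.toSb c f s hs, mul_zero]
  cls z hz s := by
    show (kE E₀ c : ℂ) * wtD E₀ B c f (z * s * z⁻¹) = (kE E₀ c : ℂ) * wtD E₀ B c f s
    rw [SD.H17.wt_conj E₀ B c f z hz s]
  int s hs := by
    have h1 := cnd ℓ M hM hℓ V₀ G E₀ hF B hB c hc f s hs
    have h2 : ((kE E₀ c : ℕ) : ℂ) ∈ RM M := natCast_mem (RM M) _
    have h3 := (RM M).mul_mem h2 h1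
    have e : (Nat.card (frm c f) : ℂ) * (Nat.card (B.C (frm c f)) *
        ((kE E₀ c : ℂ) * wtD E₀ B c f s)) / Nat.card (B.C (frm c f) ⊓ Cu s : Subgroup G) =
        (kE E₀ c : ℂ) * ((Nat.card (frm c f) : ℂ) * (Nat.card (B.C (frm c f)) *
        wtD E₀ B c f s) / Nat.card (B.C (frm c f) ⊓ Cu s : Subgroup G)) := by ring
    show (Nat.card (frm c f) : ℂ) * (Nat.card (B.C (frm c f)) *
        ((kE E₀ c : ℂ) * wtD E₀ B c f s)) / Nat.card (B.C (frm c f) ⊓ Cu s : Subgroup G) ∈ RM M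
    rw [e]
    exact h3

theorem sum_fc [Fintype G] (B : Bk (FF M) V₀ G) (W : Subgroup V₀) (c : V₀) (N : G → ℂ)
    (hN : ∀ z ∈ B.C W, ∀ g, N (z * g * z⁻¹) = N g) :
    (Nat.card (B.C W) : ℂ)⁻¹ * ∑ g, fc B W c g * N g =
      (Nat.card (B.C (W ⊔ Subgroup.zpowers c)) : ℂ)⁻¹ *
        ∑ s, bh B (W ⊔ Subgroup.zpowers c) s * N (B.i c * s) := by
  have := Fintype.ofFinite (B.C W)
  have h1 : ∀ g, fc B W c g = (Nat.card (B.C (W ⊔ Subgroup.zpowers c)) : ℂ)⁻¹ *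
      ∑ z : B.C W, bh B (W ⊔ Subgroup.zpowers c) ((B.i c)⁻¹ * ((z : G)⁻¹ * g * z)) := by
    intro g
    rw [← finsum_eq_sum_of_fintype]
    rfl
  have h2 : ∀ z : B.C W, ∑ g, bh B (W ⊔ Subgroup.zpowers c) ((B.i c)⁻¹ * ((z : G)⁻¹ * g * z)) *
      N g = ∑ s, bh B (W ⊔ Subgroup.zpowers c) s * N (B.i c * s) := by
    intro z
    rw [← Equiv.sum_comp ((Equiv.mulLeft (B.i c)).trans (MulAut.conj (z : G)).toEquiv)]
    refine Finset.sum_congr rfl fun s _ => ?_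
    have e1 : ((Equiv.mulLeft (B.i c)).trans (MulAut.conj (z : G)).toEquiv) s =
      z * (B.i c * s) * (z : G)⁻¹ := rfl
    rw [e1, hN z z.2]
    have e2 : (B.i c)⁻¹ * ((z : G)⁻¹ * (z * (B.i c * s) * (z : G)⁻¹) * z) = s := by group
    rw [e2]
  have h3 : (Nat.card (B.C W) : ℂ) ≠ 0 := by
    exact_mod_cast Nat.card_pos.ne'
  have h4 : ∑ g, fc B W c g * N g = (Nat.card (B.C (W ⊔ Subgroup.zpowers c)) : ℂ)⁻¹ *
      (Nat.card (B.C W) * ∑ s, bh B (W ⊔ Subgroup.zpowers c) s * N (B.i c * s)) := by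
    have h5 : ∀ g, fc B W c g * N g = (Nat.card (B.C (W ⊔ Subgroup.zpowers c)) : ℂ)⁻¹ *
        ∑ z : B.C W, bh B (W ⊔ Subgroup.zpowers c) ((B.i c)⁻¹ * ((z : G)⁻¹ * g * z)) * N g := by
      intro g
      rw [h1, mul_assoc, Finset.sum_mul]
    rw [Finset.sum_congr rfl fun g _ => h5 g, ← Finset.mul_sum, Finset.sum_comm,
      Finset.sum_congr rfl fun z _ => h2 z, Finset.sum_const, nsmul_eq_mul, Finset.card_univ,
      Nat.card_eq_fintype_card (α := B.C W)]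
  rw [h4]
  field_simp

end aux

theorem lmn (cnd : SD.CndStmt) : LmnStmt := by
  intro ℓ _ M _ hM hℓ V₀ G _ _ _ _ E₀ hF B hB c hc
  classical
  refine ⟨2, fun j => frm c (decide (j = 0)),
    fun j s => (kE E₀ c : ℂ) * wtD E₀ B c (decide (j = 0)) s,
    fun j => frm_lmn cnd ℓ hM hℓ E₀ hF B hB c hc _, ?_⟩
  intro W N hN
  have := Fintype.ofFinite G
  have hk : (kE E₀ c : ℂ) ≠ 0 := by
    have : 0 < kE E₀ c := Nat.card_pos
    exact_mod_cast this.ne'
  have hmono : W ≤ Subgroup.zpowers c → B.C (Subgroup.zpowers c) ≤ B.C W := by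
    intro h z hz
    refine Subgroup.mem_centralizer_iff.2 fun y hy => ?_
    obtain ⟨p, hp, rfl⟩ := hy
    exact (mem_C B _ z hz p (h hp)).symm
  have key := one_var (Fact.out : ℓ.Prime) hF B hc W (fun s => N (B.i c * s))
    (fun h z hz s => by
      have hcz := mem_C B _ z hz c (Subgroup.mem_zpowers c)
      have e1 : B.i c * (z * s * z⁻¹) = z * (B.i c * s) * z⁻¹ := by
        rw [← mul_assoc, ← mul_assoc, ← hcz]
        group
      show N (B.i c * (z * s * z⁻¹)) = N (B.i c * s)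
      rw [e1, hN z (hmono h hz)])
  rw [Fintype.sum_bool] at key
  rw [Fin.sum_univ_two]
  have e0 : decide ((0 : Fin 2) = 0) = true := rfl
  have e1 : decide ((1 : Fin 2) = 0) = false := rfl
  have hL : ∀ f : Bool, (if W ≤ frm c f then
      ∑ᶠ s : G, (kE E₀ c : ℂ) * wtD E₀ B c f s * N (B.i c * s) else 0) =
      (kE E₀ c : ℂ) * (if W ≤ frm c f then ∑ s, wtD E₀ B c f s * N (B.i c * s) else 0) := by
    intro f
    by_cases h : W ≤ frm c f
    · rw [if_pos h, if_pos h, finsum_eq_sum_of_fintype, Finset.mul_sum]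
      exact Finset.sum_congr rfl fun s _ => mul_assoc _ _ _
    · rw [if_neg h, if_neg h, mul_zero]
  have hL0 := hL true
  have hL1 := hL false
  have hR : (Nat.card (B.C W) : ℂ)⁻¹ * ∑ᶠ g : G, mnl E₀ B c W g * N g =
      (if W ≤ Subgroup.zpowers c then (kE E₀ c : ℂ) else 1) *
      ((Nat.card (B.C W) : ℂ)⁻¹ * ∑ g, fc B W c g * N g) := by
    rw [finsum_eq_sum_of_fintype, Finset.mul_sum, Finset.mul_sum, Finset.mul_sum]
    refine Finset.sum_congr rfl fun g _ => ?_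
    show _ * ((if W ≤ Subgroup.zpowers c then (kE E₀ c : ℂ) else 1) * fc B W c g * N g) = _
    ring
  show (if W ≤ frm c (decide ((0 : Fin 2) = 0)) then _ else _) +
    (if W ≤ frm c (decide ((1 : Fin 2) = 0)) then _ else _) = _
  rw [hR, sum_fc B W c N hN]
  have hkf : (kE E₀ c : ℂ) * ((kf E₀ W c : ℚ) : ℂ) =
      if W ≤ Subgroup.zpowers c then (kE E₀ c : ℂ) else 1 := by
    unfold kf
    by_cases h : W ≤ Subgroup.zpowers c
    · rw [if_pos h, if_pos h, Rat.cast_one, mul_one]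
    · rw [if_neg h, if_neg h]
      push_cast
      exact mul_inv_cancel₀ hk
  rw [← hkf, mul_assoc, ← key, mul_add]
  exact congrArg₂ (· + ·) hL0 hL1

end Pool.Agent.PP.SE.H63
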