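import Pool.Agent.ASE.Stmts5
import Pool.Agent.Helper62_ASO.LBS

open scoped BigOperators

noncomputable section

namespace Pool.Agent.PP.SE.H63

open Pool.Agent.Helper51_AWC Pool.Agent.Helper79_WRA Pool.Agent.PP Pool.Agent.PP.KF
open Pool.Agent.PP.K9 Pool.Agent.PP.K9.H97 Pool.Agent.PP.H75 Pool.Agent.PP.T3 Pool.Agent.PP.SO
open Pool.Agent.PP.SD

attribute [local instance] Ideal.Quotient.field

open Classical in
theorem mbs_gen (mbi : SO.MbiStmt) {M : Ideal (integralClosure ℤ ℂ)} [M.IsMaximal]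
    {V₀ G : Type} [CommGroup V₀] [Finite V₀] [Group G] [Finite G] (B : Bk (FF M) V₀ G) {n : ℕ}
    (P P' : Subgroup V₀) (κ κ' : V₀) (w w' : G → ℂ) (Cd : G → G → G → G → SO.SS n V₀ → Prop)
    (F : Set (SO.SS n V₀) → ℚ) :
    ∑ᶠ s : G × G, w s.1 * w' s.2 * ((∑ᶠ z : XX (B.i κ * s.1) (B.i κ' * s.2),
      F {σ | σ.2.2.1 ∈ P ∧ σ.2.2.2 ∈ P' ∧ Cd (B.i κ * s.1) z.1.1 z.1.2.1 z.1.2.2 σ} : ℚ) : ℂ) =
    ∑ᶠ L : Set (SO.SS n V₀), if pL L ≤ P ∧ qL L ≤ P' then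
      ((mob F L : ℚ) : ℂ) * ∑ᶠ s : G × G, w s.1 * w' s.2 *
        (SO.H62.NN Cd (B.i κ * s.1) (B.i κ' * s.2) L : ℂ) else 0 := by
  have := Fintype.ofFinite G
  have := Fintype.ofFinite (Set (SO.SS n V₀))
  rw [finsum_eq_sum_of_fintype]
  simp only [finsum_eq_sum_of_fintype (α := G × G), SO.H62.sum_types mbi Cd]
  rw [finsum_eq_sum_of_fintype]
  have e1 : ∀ s : G × G, w s.1 * w' s.2 *
      ((∑ L : Set (SO.SS n V₀), mob F L * (if pL L ≤ P ∧ qL L ≤ P' then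
        (SO.H62.NN Cd (B.i κ * s.1) (B.i κ' * s.2) L : ℚ) else 0) : ℚ) : ℂ) =
      ∑ L : Set (SO.SS n V₀), if pL L ≤ P ∧ qL L ≤ P' then ((mob F L : ℚ) : ℂ) *
        (w s.1 * w' s.2 * (SO.H62.NN Cd (B.i κ * s.1) (B.i κ' * s.2) L : ℂ)) else 0 := by
    intro s
    push_cast
    rw [Finset.mul_sum]
    refine Finset.sum_congr rfl fun L _ => ?_
    by_cases h : pL L ≤ P ∧ qL L ≤ P'
    · rw [if_pos h, if_pos h]
      push_cast
      ring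
    · rw [if_neg h, if_neg h]
      push_cast
      ring
  rw [Finset.sum_congr rfl fun s _ => e1 s, Finset.sum_comm]
  refine Finset.sum_congr rfl fun L _ => ?_
  by_cases h : pL L ≤ P ∧ qL L ≤ P'
  · rw [if_pos h, Finset.sum_congr rfl fun s _ => if_pos h, Finset.mul_sum]
  · rw [if_neg h, Finset.sum_congr rfl fun s _ => if_neg h, Finset.sum_const_zero]

theorem mbs (mbi : SO.MbiStmt) : MbsStmt := by
  intro M _ V₀ G _ _ _ _ B n m P P' κ κ' w w' F₁₃ F₁₂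
  classical
  have h13 := mbs_gen mbi B P P' κ κ' w w' (fun g x y u (s : SO.SS n V₀) =>
    c13 m B.i g x y u s.1 s.2.1 s.2.2.1 s.2.2.2) F₁₃
  have h12 := mbs_gen mbi B P P' κ κ' w w' (fun _ x y u (s : SO.SS n V₀) =>
    c12 m B.i x y u s.1 s.2.1 s.2.2.1 s.2.2.2) F₁₂
  have hL : SFr B m P κ w P' κ' w' F₁₃ F₁₂ =
      (∑ᶠ s : G × G, w s.1 * w' s.2 * ((∑ᶠ z : XX (B.i κ * s.1) (B.i κ' * s.2),
        F₁₃ (t13 n m B.i P P' (B.i κ * s.1) z.1.1 z.1.2.1 z.1.2.2) : ℚ) : ℂ)) +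
      ∑ᶠ s : G × G, w s.1 * w' s.2 * ((∑ᶠ z : XX (B.i κ * s.1) (B.i κ' * s.2),
        F₁₂ (t12 n m B.i P P' z.1.1 z.1.2.1 z.1.2.2) : ℚ) : ℂ) := by
    unfold SFr
    rw [← finsum_add_distrib (Set.toFinite _) (Set.toFinite _)]
    refine finsum_congr fun s => ?_
    rw [← mul_add]
    congr 1
    rw [← Rat.cast_add]
    congr 1
    exact finsum_add_distrib (Set.toFinite _) (Set.toFinite _)
  rw [hL]
  refine (congrArg₂ (· + ·) h13 h12).trans ?_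
  show _ + _ = _
  rw [← finsum_add_distrib (Set.toFinite _) (Set.toFinite _)]
  refine finsum_congr fun L => ?_
  by_cases h : pL L ≤ P ∧ qL L ≤ P'
  · rw [if_pos h, if_pos h, if_pos h]
    rfl
  · rw [if_neg h, if_neg h, if_neg h, add_zero]

end Pool.Agent.PP.SE.H63
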