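import Pool.Agent.ASE.Stmts9

open scoped BigOperators

noncomputable section

namespace Pool.Agent.PP.SE.H63

open Pool.Agent.Helper51_AWC Pool.Agent.Helper79_WRA Pool.Agent.PP Pool.Agent.PP.KF
open Pool.Agent.PP.K9 Pool.Agent.PP.K9.H97 Pool.Agent.PP.H75 Pool.Agent.PP.T3 Pool.Agent.PP.SO
open Pool.Agent.PP.SD

attribute [local instance] Ideal.Quotient.field

theorem sxa : SxaStmt := by
  intro ℓ _ M _ _ V₀ G _ _ _ _ E₀ _ B hB
  set T : Subgroup G := Tg B.i.range B.g with hT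
  have hle : T ≤ Subgroup.normalizer (B.i.range : Set G) := inf_le_left
  have hact : ∀ t : T, ∃ σ : MulAut V₀, σ ∈ E₀ ∧ ∀ v, (t : G) * B.i v * (t : G)⁻¹ = B.i (σ v) := by
    intro t
    obtain ⟨σ, h1, h2⟩ := hB.act t t.2
    exact ⟨σ, h1, h2⟩
  choose f hf1 hf2 using hact
  have huniq : ∀ (t : T) (σ : MulAut V₀), (∀ v, (t : G) * B.i v * (t : G)⁻¹ = B.i (σ v)) →
      f t = σ := by
    intro t σ h
    ext v
    refine hB.inj ?_
    rw [← hf2 t v, h v]
  have hmul : ∀ s t : T, f (s * t) = f s * f t := by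
    intro s t
    refine huniq _ _ fun v => ?_
    rw [MulAut.mul_apply, ← hf2 s, ← hf2 t, Subgroup.coe_mul]
    group
  let ψ : T →* MulAut V₀ := MonoidHom.mk' f hmul
  have hψ : ∀ t, ψ t = f t := fun t => rfl
  set N : Subgroup T := B.i.range.subgroupOf T with hN
  haveI : N.Normal := Subgroup.normal_subgroupOf_of_le_normalizer hle
  have hker : N ≤ ψ.ker := by
    intro t ht
    rw [MonoidHom.mem_ker, hψ]
    refine huniq _ _ fun v => ?_
    have h1 : (t : G) ∈ B.i.range := Subgroup.mem_subgroupOf.mp ht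
    rw [hB.ld.ab (t : G) h1 (B.i v) ⟨v, rfl⟩, mul_inv_cancel_right, MulAut.one_apply]
  refine ⟨T ⧸ N, inferInstance, inferInstance, QuotientGroup.mk' N, QuotientGroup.lift N ψ hker,
    ⟨QuotientGroup.mk'_surjective N, fun t => ?_, fun t v => ?_⟩, ?_⟩
  · rw [← MonoidHom.mem_ker, QuotientGroup.ker_mk']
    exact Subgroup.mem_subgroupOf
  · rw [QuotientGroup.mk'_apply, QuotientGroup.lift_mk, hψ]
    exact hf2 t v
  · ext σ
    constructor
    · rintro ⟨x, rfl⟩
      obtain ⟨t, rfl⟩ := QuotientGroup.mk'_surjective N x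
      rw [QuotientGroup.mk'_apply, QuotientGroup.lift_mk, hψ]
      exact hf1 t
    · intro hσ
      obtain ⟨t, ht, h1⟩ := hB.sur σ hσ
      refine ⟨QuotientGroup.mk' N ⟨t, ht⟩, ?_⟩
      rw [QuotientGroup.mk'_apply, QuotientGroup.lift_mk, hψ]
      exact huniq ⟨t, ht⟩ σ h1

end Pool.Agent.PP.SE.H63
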